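import Pool.Agent.P8H99.GO.Stm

/-!
# Project OD, part SEV: at least seven levels

`mult s ≤ k^n ≤ 2^(k n)`, `path s ≤ n²/4 - T n/16` and `T ≥ 24 k`.
-/

set_option autoImplicit false
set_option linter.all false

namespace Pool.Agent.P8H53.OD

open Pool.Agent.P8H99.GO

theorem two_mul_le_pow (t : ℕ) : 2 * (t + 1) ≤ 2 ^ (t + 1) := by
  have h : t < 2 ^ t := Nat.lt_two_pow_self
  rw [pow_succ]
  omega

theorem sev : S_MUL → S_BLK → S_SEV := by
  intro hM hB k hk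
  obtain ⟨-, -, -, h4⟩ := hM
  refine ⟨2 ^ (24 * k), ?_⟩
  intro s hs hN h1 h2
  generalize hn : s.sum = n at *
  generalize hT : Nat.log 2 n = T at *
  have hpos : 0 < 2 ^ (24 * k) := by positivity
  have hn0 : n ≠ 0 := by omega
  have hT24 : 24 * k ≤ T := by
    rw [← hT]
    exact Nat.le_log_of_pow_le (by norm_num) hN
  have hTn : 2 ^ T ≤ n := by
    rw [← hT]
    exact Nat.pow_log_le_self 2 hn0
  have h2T : 2 * T ≤ n := by
    have hT1 : 1 ≤ T := by omega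
    have h := two_mul_le_pow (T - 1)
    rw [Nat.sub_add_cancel hT1] at h
    omega
  have hP : (path s : ℝ) ≤ (n : ℝ) ^ 2 / 4 - T * n / 16 := by
    have h := hB T s (by omega) h1 h2 (by omega)
    rw [hn] at h
    exact h
  have hMul : (mult s : ℝ) ≤ (2 : ℝ) ^ ((k : ℝ) * n) := by
    have h := h4 s
    rw [hs, hn] at h
    have h' : mult s ≤ 2 ^ (k * n) := by
      calc mult s ≤ k ^ n := h
        _ ≤ (2 ^ k) ^ n := Nat.pow_le_pow_left (Nat.lt_two_pow_self).le n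
        _ = 2 ^ (k * n) := by rw [pow_mul]
    have h'' : (mult s : ℝ) ≤ (2 : ℝ) ^ (k * n) := by exact_mod_cast h'
    calc (mult s : ℝ) ≤ (2 : ℝ) ^ (k * n) := h''
      _ = (2 : ℝ) ^ (((k * n : ℕ) : ℝ)) := (Real.rpow_natCast 2 (k * n)).symm
      _ = (2 : ℝ) ^ ((k : ℝ) * n) := by push_cast; rfl
  have hPow : (2 : ℝ) ^ path s ≤ (2 : ℝ) ^ ((n : ℝ) ^ 2 / 4 - T * n / 16) := by
    rw [← Real.rpow_natCast]
    exact Real.rpow_le_rpow_of_exponent_le (by norm_num) hP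
  have hkr : (24 : ℝ) * k ≤ T := by exact_mod_cast hT24
  have hnr : (0 : ℝ) ≤ n := Nat.cast_nonneg n
  calc (mult s : ℝ) * 2 ^ path s
      ≤ (2 : ℝ) ^ ((k : ℝ) * n) * (2 : ℝ) ^ ((n : ℝ) ^ 2 / 4 - T * n / 16) :=
        mul_le_mul hMul hPow (by positivity) (by positivity)
    _ = (2 : ℝ) ^ ((k : ℝ) * n + ((n : ℝ) ^ 2 / 4 - T * n / 16)) :=
        (Real.rpow_add (by norm_num) _ _).symm
    _ ≤ (2 : ℝ) ^ ((n : ℝ) ^ 2 / 4 + (7 - (k : ℝ)) / 2 * n) := by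
        apply Real.rpow_le_rpow_of_exponent_le (by norm_num)
        nlinarith [mul_nonneg (sub_nonneg.2 hkr) hnr]

end Pool.Agent.P8H53.OD
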